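import Pool.Agent.Helper1.RK.StA

/-!
# Project RK (MP_de00bc_nt), module IOT: automorphisms and substitutions of `RatFunc L`
-/

set_option autoImplicit false

namespace Pool.Agent.Helper7.RK

open Pool.Agent.Helper1.RK
open Polynomial

private theorem iot_poly {L : Type} [Field L] (φ : RatFunc L →ₐ[L] RatFunc L) (P : L[X]) :
    φ (algebraMap L[X] (RatFunc L) P) = aeval (φ RatFunc.X) P := by
  rw [← RatFunc.algebraMap_X]
  have h : φ.comp (IsScalarTower.toAlgHom L L[X] (RatFunc L)) =
      aeval (φ (algebraMap L[X] (RatFunc L) X)) := by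
    apply Polynomial.algHom_ext
    simp
  have := DFunLike.congr_fun h P
  simpa using this

private theorem iot_ext {L : Type} [Field L] (φ φ' : RatFunc L →ₐ[L] RatFunc L)
    (h : φ RatFunc.X = φ' RatFunc.X) : φ = φ' := by
  ext g
  rw [← RatFunc.num_div_denom g, map_div₀, map_div₀, iot_poly, iot_poly, iot_poly, iot_poly, h]

private theorem iot_C {L : Type} [Field L] (φ : RatFunc L →ₐ[L] RatFunc L) (a : L) :
    φ (RatFunc.C a) = RatFunc.C a := by
  rw [← RatFunc.algebraMap_eq_C]
  exact φ.commutes a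

private theorem iot_subst {L : Type} [Field L] (s : RatFunc L) (hs : ¬ Cst s) :
    ∃ φ : RatFunc L →ₐ[L] RatFunc L, φ RatFunc.X = s := by
  have ht : Transcendental L s := s.transcendental_of_ne_C hs
  refine ⟨(IntermediateField.adjoin L {s}).val.comp
    (RatFunc.algEquivOfTranscendental s ht).toAlgHom, ?_⟩
  exact RatFunc.algEquivOfTranscendental_X s ht

private theorem iot_den {L : Type} [Field L] (c e : L) (h : c ≠ 0 ∨ e ≠ 0) :
    RatFunc.C c * RatFunc.X + RatFunc.C e ≠ 0 := by
  intro h0
  have h1 : algebraMap L[X] (RatFunc L) (C c * X + C e) = 0 := by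
    rw [map_add, map_mul, RatFunc.algebraMap_X, RatFunc.algebraMap_C, RatFunc.algebraMap_C]
    exact h0
  have h2 : (C c * X + C e : L[X]) = 0 := by
    apply (RatFunc.algebraMap_injective L)
    rw [h1, map_zero]
  have hc : c = 0 := by
    have := congrArg (fun P => P.coeff 1) h2
    simpa using this
  have he : e = 0 := by
    have := congrArg (fun P => P.coeff 0) h2
    simpa using this
  rcases h with h | h
  · exact h hc
  · exact h he

private theorem iot_nc {L : Type} [Field L] (a b c e : L) (h : a * e - b * c ≠ 0) :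
    ¬ Cst ((RatFunc.C a * RatFunc.X + RatFunc.C b) / (RatFunc.C c * RatFunc.X + RatFunc.C e)) := by
  rintro ⟨k, hk⟩
  have hd : RatFunc.C c * RatFunc.X + RatFunc.C e ≠ 0 := by
    apply iot_den
    by_contra hh
    push Not at hh
    apply h
    rw [hh.1, hh.2]
    ring
  rw [div_eq_iff hd] at hk
  have h1 : algebraMap L[X] (RatFunc L) (C a * X + C b) =
      algebraMap L[X] (RatFunc L) (C k * (C c * X + C e)) := by
    simp only [map_add, map_mul, RatFunc.algebraMap_X, RatFunc.algebraMap_C]
    exact hk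
  have h2 : (C a * X + C b : L[X]) = C k * (C c * X + C e) := RatFunc.algebraMap_injective L h1
  have ha : a = k * c := by
    have := congrArg (fun P => P.coeff 1) h2
    simpa using this
  have hb : b = k * e := by
    have := congrArg (fun P => P.coeff 0) h2
    simpa using this
  apply h
  rw [ha, hb]
  ring

private theorem iot_comp {L : Type} [Field L] (a b c e : L) (h : a * e - b * c ≠ 0)
    (φ ψ : RatFunc L →ₐ[L] RatFunc L)
    (hφ : φ RatFunc.X =
      (RatFunc.C a * RatFunc.X + RatFunc.C b) / (RatFunc.C c * RatFunc.X + RatFunc.C e))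
    (hψ : ψ RatFunc.X =
      (RatFunc.C e * RatFunc.X + RatFunc.C (-b)) / (RatFunc.C (-c) * RatFunc.X + RatFunc.C a)) :
    φ.comp ψ = AlgHom.id L (RatFunc L) := by
  apply iot_ext
  have hd : RatFunc.C c * RatFunc.X + RatFunc.C e ≠ 0 := by
    apply iot_den
    by_contra hh
    push Not at hh
    apply h
    rw [hh.1, hh.2]
    ring
  have hdet : (RatFunc.C a * RatFunc.C e - RatFunc.C b * RatFunc.C c : RatFunc L) ≠ 0 := by
    rw [← map_mul, ← map_mul, ← map_sub]
    intro h0
    apply h
    exact RatFunc.C_injective (h0.trans (map_zero _).symm)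
  have h3 : (-RatFunc.C c * ((RatFunc.C a * RatFunc.X + RatFunc.C b) /
      (RatFunc.C c * RatFunc.X + RatFunc.C e)) + RatFunc.C a : RatFunc L) ≠ 0 := by
    intro h0
    rw [mul_div_assoc', div_add' _ _ _ hd, div_eq_zero_iff] at h0
    rcases h0 with h0 | h0
    · apply hdet
      linear_combination h0
    · exact hd h0
  change φ (ψ RatFunc.X) = RatFunc.X
  rw [hψ, map_div₀, map_add, map_add, map_mul, map_mul, iot_C, iot_C, iot_C, iot_C, hφ]
  simp only [map_neg]
  rw [div_eq_iff h3]
  have hq : (RatFunc.C a * RatFunc.X + RatFunc.C b) / (RatFunc.C c * RatFunc.X + RatFunc.C e) *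
      (RatFunc.C c * RatFunc.X + RatFunc.C e) = RatFunc.C a * RatFunc.X + RatFunc.C b :=
    div_mul_cancel₀ _ hd
  linear_combination hq

private theorem iot_moeb {L : Type} [Field L] (a b c e : L) (h : a * e - b * c ≠ 0) :
    ∃ ψ : RatFunc L ≃ₐ[L] RatFunc L, ψ RatFunc.X =
      (RatFunc.C a * RatFunc.X + RatFunc.C b) / (RatFunc.C c * RatFunc.X + RatFunc.C e) := by
  have h' : e * a - (-b) * (-c) ≠ 0 := by
    intro h0
    apply h
    linear_combination h0
  obtain ⟨φ, hφ⟩ := iot_subst _ (iot_nc a b c e h)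
  obtain ⟨ψ, hψ⟩ := iot_subst _ (iot_nc e (-b) (-c) a h')
  refine ⟨AlgEquiv.ofAlgHom φ ψ (iot_comp a b c e h φ ψ hφ hψ) ?_, hφ⟩
  apply iot_comp e (-b) (-c) a h' ψ φ hψ
  rw [neg_neg, neg_neg]
  exact hφ

private theorem iot_rev {L : Type} [Field L] (ι : RatFunc L ≃ₐ[L] RatFunc L)
    (hι : ι RatFunc.X = RatFunc.X⁻¹) (P : L[X]) :
    ι (algebraMap L[X] (RatFunc L) P) = algebraMap L[X] (RatFunc L) P.reverse /
      algebraMap L[X] (RatFunc L) (X ^ P.natDegree) := by
  have h := iot_poly (ι : RatFunc L →ₐ[L] RatFunc L) P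
  have h1 : ι (algebraMap L[X] (RatFunc L) P) = aeval (RatFunc.X⁻¹ : RatFunc L) P := by
    rw [← hι]; exact h
  have hX : (RatFunc.X : RatFunc L) ≠ 0 := RatFunc.X_ne_zero
  let : Invertible (RatFunc.X⁻¹ : RatFunc L) := invertibleOfNonzero (inv_ne_zero hX)
  have h2 := eval₂_reverse_mul_pow (algebraMap L (RatFunc L)) (RatFunc.X⁻¹ : RatFunc L) P
  rw [invOf_eq_inv, inv_inv] at h2
  rw [h1, aeval_def, ← h2, map_pow, RatFunc.algebraMap_X, inv_pow, ← div_eq_mul_inv]
  congr 1
  have h3 := iot_poly (AlgHom.id L (RatFunc L)) P.reverse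
  simp only [AlgHom.coe_id, id_eq] at h3
  rw [h3, aeval_def]

theorem pIOT (h1 : StORD) (h2 : StREG) : StIOT := by
  intro L _
  obtain ⟨o1, -⟩ := h1 L (0 : L)
  obtain ⟨-, r2, -⟩ := h2 L (0 : L)
  have hrm : ∀ P : L[X], P ≠ 0 → (P.reverse).rootMultiplicity 0 = 0 := by
    intro P hP
    apply rootMultiplicity_eq_zero
    rw [IsRoot.def, ← coeff_zero_eq_eval_zero, coeff_zero_reverse]
    exact leadingCoeff_ne_zero.2 hP
  have hrX : ∀ n : ℕ, (X ^ n : L[X]).rootMultiplicity 0 = n := by
    intro n
    have := rootMultiplicity_X_sub_C_pow (0 : L) n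
    rwa [map_zero, sub_zero] at this
  have hX : (RatFunc.X : RatFunc L) ≠ 0 := RatFunc.X_ne_zero
  refine ⟨?_, ?_, iot_moeb, iot_subst, iot_ext, ?_⟩
  · obtain ⟨ψ, hψ⟩ := iot_moeb (0 : L) 1 1 0 (by simp)
    refine ⟨ψ, ?_⟩
    rw [hψ]
    simp
  · intro ι hι
    refine ⟨?_, ?_, ?_⟩
    · intro g
      have h := iot_ext ((ι : RatFunc L →ₐ[L] RatFunc L).comp (ι : RatFunc L →ₐ[L] RatFunc L))
        (AlgHom.id L _) (by
          change ι (ι RatFunc.X) = RatFunc.X
          rw [hι, map_inv₀, hι, inv_inv])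
      exact DFunLike.congr_fun h g
    · intro P hreg
      by_contra hP
      have hrev : P.reverse ≠ 0 := fun h => hP (reverse_eq_zero.1 h)
      have e : (RatFunc.X⁻¹ ^ 2 * ι (algebraMap L[X] (RatFunc L) P) : RatFunc L) =
          algebraMap L[X] (RatFunc L) P.reverse /
            algebraMap L[X] (RatFunc L) (X ^ (P.natDegree + 2)) := by
        rw [iot_rev ι hι, map_pow, map_pow, RatFunc.algebraMap_X, pow_add]
        field_simp
      rw [e] at hreg
      have h3 := o1 P.reverse (X ^ (P.natDegree + 2)) hrev (pow_ne_zero _ X_ne_zero)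
      rw [hrm P hP, hrX] at h3
      rcases (r2 _).1 hreg with h4 | h4
      · rw [div_eq_zero_iff] at h4
        rcases h4 with h4 | h4
        · exact hrev (RatFunc.algebraMap_injective L (h4.trans (map_zero _).symm))
        · exact (pow_ne_zero _ X_ne_zero : (X ^ (P.natDegree + 2) : L[X]) ≠ 0)
            (RatFunc.algebraMap_injective L (h4.trans (map_zero _).symm))
      · rw [h3] at h4
        push_cast at h4
        omega
    · intro P
      by_cases hP : P = 0
      · subst hP
        rw [map_zero, map_zero, mul_zero, r2]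
        simp
      have hrev : P.reverse ≠ 0 := fun h => hP (reverse_eq_zero.1 h)
      have e : (RatFunc.X ^ 2 * ι (algebraMap L[X] (RatFunc L) P) : RatFunc L) =
          algebraMap L[X] (RatFunc L) (X ^ 2 * P.reverse) /
            algebraMap L[X] (RatFunc L) (X ^ P.natDegree) := by
        rw [iot_rev ι hι, map_mul, map_pow, map_pow, RatFunc.algebraMap_X]
        ring
      have hne : (X ^ 2 * P.reverse : L[X]) ≠ 0 := mul_ne_zero (pow_ne_zero _ X_ne_zero) hrev
      have h3 := o1 (X ^ 2 * P.reverse) (X ^ P.natDegree) hne (pow_ne_zero _ X_ne_zero)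
      rw [rootMultiplicity_mul hne, hrm P hP, hrX, hrX] at h3
      rw [e, r2, h3]
      constructor
      · rintro (h4 | h4)
        · exfalso
          rw [div_eq_zero_iff] at h4
          rcases h4 with h4 | h4
          · exact hne (RatFunc.algebraMap_injective L (h4.trans (map_zero _).symm))
          · exact (pow_ne_zero _ X_ne_zero : (X ^ P.natDegree : L[X]) ≠ 0)
              (RatFunc.algebraMap_injective L (h4.trans (map_zero _).symm))
        · push_cast at h4
          omega
      · intro h4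
        right
        push_cast
        omega
  · intro φ
    refine ⟨iot_C φ, fun g => ⟨?_, ?_⟩⟩
    · rintro ⟨a, ha⟩
      refine ⟨a, ?_⟩
      apply φ.toRingHom.injective
      change φ g = φ (RatFunc.C a)
      rw [ha, iot_C]
    · rintro ⟨a, ha⟩
      refine ⟨a, ?_⟩
      rw [ha, iot_C]

end Pool.Agent.Helper7.RK
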