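import Pool.Agent.Helper1.RK.StC

/-!
# Project RK (MP_de00bc_nt), module SIG: coefficientwise automorphisms of `RatFunc L`
-/

set_option autoImplicit false

namespace Pool.Agent.Helper7.RK

open Pool.Agent.Helper1.RK
open Polynomial

section

variable {L : Type} [Field L]

/-- `S` on polynomials -/
private theorem sg_poly (σ : L ≃+* L) (S : RatFunc L ≃+* RatFunc L) (h : Ext σ S) (P : L[X]) :
    S (algebraMap L[X] (RatFunc L) P) =
      algebraMap L[X] (RatFunc L) (P.map (σ : L →+* L)) := by
  induction P using Polynomial.induction_on' with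
  | add p q hp hq => rw [map_add, map_add, hp, hq, Polynomial.map_add, map_add]
  | monomial n a =>
    have e : ∀ b : L, algebraMap L[X] (RatFunc L) (monomial n b) =
        RatFunc.C b * RatFunc.X ^ n := by
      intro b
      rw [← C_mul_X_pow_eq_monomial, map_mul, map_pow, RatFunc.algebraMap_X, RatFunc.algebraMap_C]
    rw [Polynomial.map_monomial, e, e, map_mul, map_pow, h.1, h.2]
    rfl

private theorem am_inj {P Q : L[X]}
    (h : algebraMap L[X] (RatFunc L) P = algebraMap L[X] (RatFunc L) Q) : P = Q :=
  RatFunc.algebraMap_injective L h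

/-- lowest terms are unique -/
private theorem lowest (g : RatFunc L) (p q : L[X]) (hc : IsCoprime p q) (hq : q.Monic)
    (hg : g = algebraMap L[X] (RatFunc L) p / algebraMap L[X] (RatFunc L) q) :
    g.num = p ∧ g.denom = q := by
  have hd : g.denom.Monic := g.monic_denom
  have h0 : algebraMap L[X] (RatFunc L) q ≠ 0 := by
    intro h
    exact hq.ne_zero (am_inj (h.trans (map_zero _).symm))
  have h1 : algebraMap L[X] (RatFunc L) g.denom ≠ 0 := by
    intro h
    exact hd.ne_zero (am_inj (h.trans (map_zero _).symm))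
  have e : g.num * q = p * g.denom := by
    apply am_inj
    rw [map_mul, map_mul]
    have h2 := RatFunc.num_div_denom g
    rw [div_eq_iff h1] at h2
    rw [eq_div_iff h0] at hg
    rw [h2, ← hg]
    ring
  have d1 : q ∣ g.denom := by
    apply hc.symm.dvd_of_dvd_mul_left
    rw [← e]
    exact dvd_mul_left _ _
  have d2 : g.denom ∣ q := by
    apply (g.isCoprime_num_denom).symm.dvd_of_dvd_mul_left
    rw [e]
    exact dvd_mul_left _ _
  have e2 : g.denom = q :=
    Polynomial.eq_of_monic_of_associated hd hq (associated_of_dvd_dvd d2 d1)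
  refine ⟨?_, e2⟩
  rw [e2] at e
  exact mul_right_cancel₀ hq.ne_zero e

private theorem sg_lowest (σ : L ≃+* L) (S : RatFunc L ≃+* RatFunc L) (h : Ext σ S)
    (g : RatFunc L) :
    (S g).num = g.num.map (σ : L →+* L) ∧ (S g).denom = g.denom.map (σ : L →+* L) := by
  apply lowest
  · exact (g.isCoprime_num_denom).map (mapRingHom (σ : L →+* L))
  · exact g.monic_denom.map _
  · conv_lhs => rw [← RatFunc.num_div_denom g, map_div₀, sg_poly σ S h, sg_poly σ S h]

private theorem hom_ext {K : Type} [Field K] (f f' : RatFunc L →+* K)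
    (hC : ∀ a, f (RatFunc.C a) = f' (RatFunc.C a)) (hX : f RatFunc.X = f' RatFunc.X) : f = f' := by
  have hP : ∀ P : L[X], f (algebraMap L[X] (RatFunc L) P) = f' (algebraMap L[X] (RatFunc L) P) := by
    intro P
    induction P using Polynomial.induction_on' with
    | add p q hp hq => rw [map_add, map_add, map_add, hp, hq]
    | monomial n a =>
      rw [← C_mul_X_pow_eq_monomial, map_mul, map_pow, RatFunc.algebraMap_X,
        RatFunc.algebraMap_C, map_mul, map_mul, map_pow, map_pow, hC, hX]
  ext g
  rw [← RatFunc.num_div_denom g, map_div₀, map_div₀, hP, hP]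

/-- twisted derivations which agree on constants and on `X` agree -/
private theorem twist_ext (F : RatFunc L →+* RatFunc L) (δ δ' : RatFunc L →+ RatFunc L)
    (hl : ∀ a b, δ (a * b) = F a * δ b + F b * δ a)
    (hl' : ∀ a b, δ' (a * b) = F a * δ' b + F b * δ' a)
    (hC : ∀ a, δ (RatFunc.C a) = δ' (RatFunc.C a)) (hX : δ RatFunc.X = δ' RatFunc.X)
    (g : RatFunc L) : δ g = δ' g := by
  have hpow : ∀ n : ℕ, δ (RatFunc.X ^ n) = δ' (RatFunc.X ^ n) := by
    intro n
    induction n with
    | zero =>
      have := hC 1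
      rw [map_one] at this
      rw [pow_zero, this]
    | succ n ih => rw [pow_succ, hl, hl', ih, hX]
  have hP : ∀ P : L[X], δ (algebraMap L[X] (RatFunc L) P) = δ' (algebraMap L[X] (RatFunc L) P) := by
    intro P
    induction P using Polynomial.induction_on' with
    | add p q hp hq => rw [map_add, map_add, map_add, hp, hq]
    | monomial n a =>
      rw [← C_mul_X_pow_eq_monomial, map_mul, map_pow, RatFunc.algebraMap_X,
        RatFunc.algebraMap_C, hl, hl', hC, hpow]
  set P := algebraMap L[X] (RatFunc L) g.num with hPd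
  set Q := algebraMap L[X] (RatFunc L) g.denom with hQd
  have hQ : Q ≠ 0 := by
    intro h
    exact g.denom_ne_zero (am_inj (h.trans (map_zero _).symm))
  have hg : g * Q = P := by
    have := RatFunc.num_div_denom g
    rw [div_eq_iff hQ] at this
    exact this.symm
  have h1 := hl g Q
  have h2 := hl' g Q
  rw [hg, hPd, hP, ← hPd, hQd, hP, ← hQd] at h1
  rw [hg] at h2
  have h3 : F Q * δ g = F Q * δ' g := by
    have := h1.symm.trans h2
    exact add_left_cancel this
  exact mul_left_cancel₀ ((map_ne_zero F).2 hQ) h3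

/-- the coefficient derivation on polynomials -/
private theorem coef_der (d : Derivation ℤ L L) (E : Derivation ℤ (RatFunc L) (RatFunc L))
    (h : Over d 0 E) (P : L[X]) :
    ∃ P' : L[X], (∀ n, P'.coeff n = d (P.coeff n)) ∧
      E (algebraMap L[X] (RatFunc L) P) = algebraMap L[X] (RatFunc L) P' := by
  induction P using Polynomial.induction_on' with
  | add p q hp hq =>
    obtain ⟨p', h1, h2⟩ := hp
    obtain ⟨q', h3, h4⟩ := hq
    refine ⟨p' + q', fun n => ?_, ?_⟩
    · rw [coeff_add, coeff_add, h1, h3, map_add]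
    · rw [map_add, map_add, h2, h4, map_add]
  | monomial n a =>
    refine ⟨monomial n (d a), fun m => ?_, ?_⟩
    · rw [coeff_monomial, coeff_monomial]
      split_ifs
      · rfl
      · rw [map_zero]
    · have e : ∀ b : L, algebraMap L[X] (RatFunc L) (monomial n b) =
          RatFunc.C b * RatFunc.X ^ n := by
        intro b
        rw [← C_mul_X_pow_eq_monomial, map_mul, map_pow, RatFunc.algebraMap_X,
          RatFunc.algebraMap_C]
      rw [e, e, E.leibniz, E.leibniz_pow, h.2, h.1]
      simp only [smul_zero, zero_add, smul_eq_mul]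
      ring

private theorem sg_fix (σ : L ≃+* L) (S : RatFunc L ≃+* RatFunc L) (h : Ext σ S) (I : Type)
    (d : I → Derivation ℤ L L) (E : I → Derivation ℤ (RatFunc L) (RatFunc L))
    (hE : ∀ i, Over (d i) 0 (E i)) (hσ : ∀ x, (∀ i, d i x = 0) → σ x = x)
    (g : RatFunc L) (hg : ∀ i, E i g = 0) : S g = g := by
  have hQ : algebraMap L[X] (RatFunc L) g.denom ≠ 0 := by
    intro h
    exact g.denom_ne_zero (am_inj (h.trans (map_zero _).symm))
  have hgQ : g * algebraMap L[X] (RatFunc L) g.denom = algebraMap L[X] (RatFunc L) g.num := by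
    have := RatFunc.num_div_denom g
    rw [div_eq_iff hQ] at this
    exact this.symm
  have key : ∀ i, (∀ n, d i (g.num.coeff n) = 0) ∧ ∀ n, d i (g.denom.coeff n) = 0 := by
    intro i
    obtain ⟨P', hP1, hP2⟩ := coef_der (d i) (E i) (hE i) g.num
    obtain ⟨Q', hQ1, hQ2⟩ := coef_der (d i) (E i) (hE i) g.denom
    have h1 := (E i).leibniz g (algebraMap L[X] (RatFunc L) g.denom)
    rw [hgQ, hP2, hQ2, hg i, smul_zero, add_zero, smul_eq_mul] at h1
    have h2 : P' * g.denom = g.num * Q' := by
      apply am_inj
      rw [map_mul, map_mul, h1, ← hgQ]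
      ring
    have h3 : g.denom ∣ Q' := by
      apply (g.isCoprime_num_denom).symm.dvd_of_dvd_mul_left
      rw [← h2]
      exact dvd_mul_left _ _
    have h4 : Q'.degree < g.denom.degree := by
      rw [degree_eq_natDegree g.denom_ne_zero, degree_lt_iff_coeff_zero]
      intro m hm
      rw [hQ1]
      rcases hm.eq_or_lt with hm | hm
      · have : g.denom.coeff m = 1 := by
          rw [← hm]
          exact g.monic_denom
        rw [this]
        exact (d i).map_one_eq_zero
      · rw [coeff_eq_zero_of_natDegree_lt hm, map_zero]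
    have h5 : Q' = 0 := eq_zero_of_dvd_of_degree_lt h3 h4
    have h6 : P' = 0 := by
      rw [h5, mul_zero] at h2
      exact (mul_eq_zero.1 h2).resolve_right g.denom_ne_zero
    refine ⟨fun n => ?_, fun n => ?_⟩
    · rw [← hP1, h6, coeff_zero]
    · rw [← hQ1, h5, coeff_zero]
  have hn : g.num.map (σ : L →+* L) = g.num := by
    ext n
    rw [coeff_map]
    exact hσ _ fun i => (key i).1 n
  have hd : g.denom.map (σ : L →+* L) = g.denom := by
    ext n
    rw [coeff_map]
    exact hσ _ fun i => (key i).2 n
  conv_lhs => rw [← RatFunc.num_div_denom g, map_div₀, sg_poly σ S h, sg_poly σ S h, hn, hd]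
  exact RatFunc.num_div_denom g

end

theorem pSIG (_h1 : StORD) (_h2 : StREG) (_h3 : StDER) (_h4 : StIOT) : StSIG := by
  intro L _ _
  refine ⟨?_, ?_, ?_⟩
  · intro σ
    have hcomm : ∀ P : L[X], IsFractionRing.ringEquivOfRingEquiv (K := RatFunc L) (L := RatFunc L)
        (Polynomial.mapEquiv σ) (algebraMap L[X] (RatFunc L) P) =
          algebraMap L[X] (RatFunc L) (P.map (σ : L →+* L)) := fun P =>
      IsFractionRing.ringEquivOfRingEquiv_algebraMap _ _
    refine ⟨IsFractionRing.ringEquivOfRingEquiv (K := RatFunc L) (L := RatFunc L)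
        (Polynomial.mapEquiv σ), ?_, ?_⟩
    · have := hcomm X
      rwa [RatFunc.algebraMap_X, Polynomial.map_X, RatFunc.algebraMap_X] at this
    · intro a
      have := hcomm (C a)
      rwa [RatFunc.algebraMap_C, Polynomial.map_C, RatFunc.algebraMap_C] at this
  · intro σ S S' h h'
    have := hom_ext (S : RatFunc L →+* RatFunc L) (S' : RatFunc L →+* RatFunc L)
      (fun a => (h.2 a).trans (h'.2 a).symm) (h.1.trans h'.1.symm)
    ext g
    exact DFunLike.congr_fun this g
  · intro σ S h
    have hev : ∀ (p : L) (P : L[X]), (P.map (σ : L →+* L)).eval (σ p) = σ (P.eval p) := by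
      intro p P
      exact eval_map_apply (f := (σ : L →+* L)) p
    have hrm : ∀ (p : L) (P : L[X]),
        (P.map (σ : L →+* L)).rootMultiplicity (σ p) = P.rootMultiplicity p := by
      intro p P
      exact (eq_rootMultiplicity_map (f := (σ : L →+* L)) σ.injective p).symm
    refine ⟨?_, ?_, ?_, ?_, ?_, ?_⟩
    · intro p g
      obtain ⟨e1, e2⟩ := sg_lowest σ S h g
      refine ⟨?_, ?_, ?_⟩
      · rw [Reg, Reg, e2, hev]
        exact (map_ne_zero σ)
      · intro _
        rw [ev, ev, e1, e2, hev, hev, map_div₀]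
      · rw [ord, ord, e1, e2, hrm, hrm]
    · intro g
      obtain ⟨e1, e2⟩ := sg_lowest σ S h g
      rw [dg, dg, e1, e2, natDegree_map, natDegree_map]
    · intro g
      constructor
      · rintro ⟨a, ha⟩
        refine ⟨σ.symm a, ?_⟩
        apply S.injective
        rw [ha, h.2, RingEquiv.apply_symm_apply]
      · rintro ⟨a, ha⟩
        exact ⟨σ a, by rw [ha, h.2]⟩
    · intro φ φ' hφ g
      have hC : ∀ (φ : RatFunc L →ₐ[L] RatFunc L) (a : L), φ (RatFunc.C a) = RatFunc.C a := by
        intro φ a
        rw [← RatFunc.algebraMap_eq_C]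
        exact φ.commutes a
      have := hom_ext ((S : RatFunc L →+* RatFunc L).comp (φ : RatFunc L →+* RatFunc L))
        ((φ' : RatFunc L →+* RatFunc L).comp (S : RatFunc L →+* RatFunc L))
        (fun a => by
          change S (φ (RatFunc.C a)) = φ' (S (RatFunc.C a))
          rw [hC, h.2, hC])
        (by
          change S (φ RatFunc.X) = φ' (S RatFunc.X)
          rw [h.1, hφ])
      exact DFunLike.congr_fun this g
    · intro d V D hd hD hV g
      refine twist_ext (S : RatFunc L →+* RatFunc L)
        ((D : RatFunc L →+ RatFunc L).comp (S : RatFunc L →+ RatFunc L))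
        ((S : RatFunc L →+ RatFunc L).comp (D : RatFunc L →+ RatFunc L)) ?_ ?_ ?_ ?_ g
      · intro a b
        change D (S (a * b)) = S a * D (S b) + S b * D (S a)
        rw [map_mul, D.leibniz, smul_eq_mul, smul_eq_mul]
      · intro a b
        change S (D (a * b)) = S a * S (D b) + S b * S (D a)
        rw [D.leibniz, smul_eq_mul, smul_eq_mul, map_add, map_mul, map_mul]
      · intro a
        change D (S (RatFunc.C a)) = S (D (RatFunc.C a))
        rw [h.2, hD.1, hD.1, h.2, hd]
      · change D (S RatFunc.X) = S (D RatFunc.X)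
        rw [h.1, hD.2, hV]
    · intro I d E hE hσ g hg
      exact sg_fix σ S h I d E hE hσ g hg

end Pool.Agent.Helper7.RK
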