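import Mathlib
import Pool.Agent.Helper43.RK.StI

set_option autoImplicit false

namespace Pool.Agent.Helper7.RK

open Pool.Agent.Helper43.RK

/-- the ring of dyadic rationals -/
def Dya : Subring ℚ where
  carrier := {x | ∃ (i : ℕ) (m : ℤ), x * 2 ^ i = m}
  mul_mem' := by
    rintro x y ⟨i, m, hx⟩ ⟨j, n, hy⟩
    refine ⟨i + j, m * n, ?_⟩
    push_cast
    rw [← hx, ← hy, pow_add]
    ring
  one_mem' := ⟨0, 1, by norm_num⟩
  add_mem' := by
    rintro x y ⟨i, m, hx⟩ ⟨j, n, hy⟩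
    refine ⟨i + j, m * 2 ^ j + n * 2 ^ i, ?_⟩
    push_cast
    rw [← hx, ← hy, pow_add]
    ring
  zero_mem' := ⟨0, 0, by norm_num⟩
  neg_mem' := by
    rintro x ⟨i, m, hx⟩
    exact ⟨i, -m, by push_cast; rw [← hx]; ring⟩

theorem coe_two : ((2 : Dya) : ℚ) = 2 := rfl

section

variable {G : Type} [Group G]

/-- `f^i t^m f^-i` -/
def FF (t f : G) (i : ℕ) (m : ℤ) : G := f ^ i * t ^ m * (f ^ i)⁻¹

theorem conj_two {t f : G} (h : f⁻¹ * t * f = t ^ 2) (m : ℤ) : f⁻¹ * t ^ m * f = t ^ (2 * m) := by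
  have h1 : f⁻¹ * t ^ m * f = (f⁻¹ * t * f) ^ m := by
    have h2 := conj_zpow (a := f⁻¹) (b := t) (i := m)
    rw [inv_inv] at h2
    exact h2.symm
  rw [h1, h, ← zpow_natCast, ← zpow_mul]
  norm_num

theorem FF_succ {t f : G} (h : f⁻¹ * t * f = t ^ 2) (i : ℕ) (m : ℤ) :
    FF t f (i + 1) (2 * m) = FF t f i m := by
  unfold FF
  rw [← conj_two h m, pow_succ]
  group

theorem FF_add {t f : G} (h : f⁻¹ * t * f = t ^ 2) (i : ℕ) (m : ℤ) (j : ℕ) :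
    FF t f (i + j) (2 ^ j * m) = FF t f i m := by
  induction j with
  | zero => simp
  | succ j ih =>
    rw [← add_assoc, pow_succ', mul_assoc, FF_succ h, ih]

theorem FF_wd {t f : G} (h : f⁻¹ * t * f = t ^ 2) {x : ℚ} {i j : ℕ} {m n : ℤ}
    (h1 : x * 2 ^ i = m) (h2 : x * 2 ^ j = n) : FF t f i m = FF t f j n := by
  rw [← FF_add h i m j, ← FF_add h j n i, add_comm j i]
  congr 1
  have h3 : ((2 ^ j * m : ℤ) : ℚ) = ((2 ^ i * n : ℤ) : ℚ) := by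
    push_cast
    rw [← h1, ← h2]
    ring
  exact_mod_cast h3

/-- the dyadic powers of `t` -/
noncomputable def pp (t f : G) (x : Dya) : G :=
  FF t f x.2.choose x.2.choose_spec.choose

theorem pp_eq {t f : G} (h : f⁻¹ * t * f = t ^ 2) (x : Dya) {i : ℕ} {m : ℤ}
    (hx : (x : ℚ) * 2 ^ i = m) : pp t f x = FF t f i m :=
  FF_wd h x.2.choose_spec.choose_spec hx

theorem pp_add {t f : G} (h : f⁻¹ * t * f = t ^ 2) (x y : Dya) :
    pp t f (x + y) = pp t f x * pp t f y := by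
  obtain ⟨i, m, hx⟩ := x.2
  obtain ⟨j, n, hy⟩ := y.2
  rw [pp_eq h x hx, pp_eq h y hy, ← FF_add h i m j, ← FF_add h j n i, add_comm j i]
  have hxy : ((x + y : Dya) : ℚ) * 2 ^ (i + j) = ((2 ^ j * m + 2 ^ i * n : ℤ) : ℚ) := by
    push_cast
    rw [← hx, ← hy, pow_add]
    ring
  rw [pp_eq h (x + y) hxy]
  unfold FF
  rw [zpow_add]
  group

theorem pp_two {t f : G} (h : f⁻¹ * t * f = t ^ 2) (x : Dya) :
    f⁻¹ * pp t f x * f = pp t f (2 * x) := by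
  obtain ⟨i, m, hx⟩ := x.2
  have h2x : ((2 * x : Dya) : ℚ) * 2 ^ i = ((2 * m : ℤ) : ℚ) := by
    push_cast
    rw [coe_two, ← hx]
    ring
  rw [pp_eq h x hx, pp_eq h (2 * x) h2x]
  unfold FF
  rw [← conj_two h m]
  have h3 : f⁻¹ * f ^ i = f ^ i * f⁻¹ := ((Commute.refl f).inv_left.pow_right i).eq
  have h4 : (f ^ i)⁻¹ * f = f * (f ^ i)⁻¹ := ((Commute.refl f).pow_left i).inv_left.eq
  calc f⁻¹ * (f ^ i * t ^ m * (f ^ i)⁻¹) * f = (f⁻¹ * f ^ i) * t ^ m * ((f ^ i)⁻¹ * f) := by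
        simp only [mul_assoc]
    _ = f ^ i * (f⁻¹ * t ^ m * f) * (f ^ i)⁻¹ := by
        rw [h3, h4]
        simp only [mul_assoc]

end

theorem hIPX : StIPX := by
  intro G _ t f a k hf ha
  have h2 : ((1 / 2 : ℚ)) ∈ Dya := ⟨1, 1, by norm_num⟩
  refine ⟨Dya, inferInstance,
    { u := ⟨2, ⟨1 / 2, h2⟩, Subtype.ext (show ((2 : Dya) : ℚ) * (1 / 2) = 1 by
            rw [coe_two]; norm_num),
          Subtype.ext (show (1 / 2 : ℚ) * ((2 : Dya) : ℚ) = 1 by rw [coe_two]; norm_num)⟩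
      hu := rfl
      p := pp t f
      f := f
      a := a
      add := pp_add hf
      pf := pp_two hf
      af := ha }, rfl, rfl, ?_⟩
  show pp t f 1 = t
  have h1 : ((1 : Dya) : ℚ) * 2 ^ 0 = ((1 : ℤ) : ℚ) := by norm_num
  rw [pp_eq hf 1 h1]
  simp [FF]

end Pool.Agent.Helper7.RK
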