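import Mathlib
import Pool.Agent.Helper43.RK.StT

set_option autoImplicit false

namespace Pool.Agent.Helper7.RK

open Pool.Agent.Helper43.RK

section Mat

variable {k : Type} [Field k]

theorem mA_sq (h2 : (1 + 1 : k) = 0) : (mA 1 0 : Matrix (Fin 3) (Fin 3) k) * mA 1 0 = 1 := by
  ext i j
  fin_cases i <;> fin_cases j <;> simp [mA, Matrix.mul_apply, Fin.sum_univ_three, h2]

theorem mA_mQ (d : k) : (mA 1 0 : Matrix (Fin 3) (Fin 3) k) * mQ d
    = mQ d * (mA 1 0 : Matrix (Fin 3) (Fin 3) k).map (fun x => x ^ 2) := by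
  ext i j
  fin_cases i <;> fin_cases j <;> simp [mA, mQ, Matrix.mul_apply, Fin.sum_univ_three]

theorem mY_mQ (h2 : (1 + 1 : k) = 0) (d : k) :
    (mY d * mY d : Matrix (Fin 3) (Fin 3) k) * mQ d
    = mQ d * (mY d : Matrix (Fin 3) (Fin 3) k).map (fun x => x ^ 2) := by
  ext i j
  fin_cases i <;> fin_cases j <;> simp [mY, mQ, Matrix.mul_apply, Fin.sum_univ_three] <;>
    first
      | ring1
      | linear_combination d * h2

theorem mY_mJ (d : k) : (mY d : Matrix (Fin 3) (Fin 3) k).transpose * mJ = mJ * mY d := by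
  ext i j
  fin_cases i <;> fin_cases j <;>
    simp [mY, mJ, Matrix.mul_apply, Matrix.transpose_apply, Fin.sum_univ_three]

theorem mJ_mB : (mJ : Matrix (Fin 3) (Fin 3) k) * mB 0 1
    = (mA 1 0 : Matrix (Fin 3) (Fin 3) k).transpose * mJ := by
  ext i j
  fin_cases i <;> fin_cases j <;>
    simp [mA, mB, mJ, Matrix.mul_apply, Matrix.transpose_apply, Fin.sum_univ_three]

theorem mB_sq (h2 : (1 + 1 : k) = 0) : (mB 0 1 : Matrix (Fin 3) (Fin 3) k) * mB 0 1 = 1 := by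
  ext i j
  fin_cases i <;> fin_cases j <;> simp [mB, Matrix.mul_apply, Fin.sum_univ_three, h2]

theorem mBA_sq (h2 : (1 + 1 : k) = 0) :
    ((mB 0 1 : Matrix (Fin 3) (Fin 3) k) * mA 1 0) * (mB 0 1 * mA 1 0) = mQ 1 := by
  ext i j
  fin_cases i <;> fin_cases j <;>
    simp [mA, mB, mQ, Matrix.mul_apply, Fin.sum_univ_three, h2]

theorem mQ_sq (h2 : (1 + 1 : k) = 0) : (mQ 1 : Matrix (Fin 3) (Fin 3) k) * mQ 1 = 1 := by
  ext i j
  fin_cases i <;> fin_cases j <;> simp [mQ, Matrix.mul_apply, Fin.sum_univ_three, h2]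

theorem mY_mA (d : k) : (mY d : Matrix (Fin 3) (Fin 3) k) * mA 1 0 = mA 0 1 * mY d := by
  ext i j
  fin_cases i <;> fin_cases j <;> simp [mA, mY, Matrix.mul_apply, Fin.sum_univ_three]

/-- the powers `Y^(2^m)` -/
def mP (d s : k) : Matrix (Fin 3) (Fin 3) k := !![s, d, 0; 1, 1 + s, 0; 0, 0, 1]

theorem mP_sq (h2 : (1 + 1 : k) = 0) (d s : k) : mP d s * mP d s = mP d (s ^ 2 + d) := by
  ext i j
  fin_cases i <;> fin_cases j <;> simp [mP, Matrix.mul_apply, Fin.sum_univ_three] <;>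
    first
      | ring1
      | linear_combination s * d * h2
      | linear_combination s * h2

theorem mP_mA (h2 : (1 + 1 : k) = 0) (d : k) :
    mP d 1 * mA 1 0 = mA 0 1 * mA 1 0 * mP d 1 := by
  ext i j
  fin_cases i <;> fin_cases j <;> simp [mP, mA, Matrix.mul_apply, Fin.sum_univ_three, h2]

theorem mY_pow (h2 : (1 + 1 : k) = 0) [CharP k 2] (d : k) (m : ℕ) :
    (mY d : Matrix (Fin 3) (Fin 3) k) ^ (2 ^ m) = mP d (∑ i ∈ Finset.range m, d ^ (2 ^ i)) := by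
  induction m with
  | zero =>
    simp only [pow_zero, pow_one, Finset.range_zero, Finset.sum_empty]
    ext i j
    fin_cases i <;> fin_cases j <;> simp [mP, mY]
  | succ m ih =>
    rw [pow_succ, pow_mul, ih, pow_two, mP_sq h2]
    congr 1
    rw [Finset.sum_range_succ', CharTwo.sum_sq]
    simp only [pow_zero, pow_one, ← pow_mul, ← pow_succ]

end Mat

/-- the relations from the abstract data -/
theorem tb_abs {T : Type} [Group T] {n k β m : ℕ} (w a t φ : T) (hβ : β = 4 * m + 1)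
    (hm : m % 2 = 0) (hk8 : k % 8 = 7) (hkn : n ∣ k - 1) (hnb : n ∣ β)
    (ww : w * w = 1) (wφ : w * φ = φ * w) (aa : a * a = 1) (φa : φ * a = a * φ)
    (φt : φ * t * φ⁻¹ = t ^ 2) (wt : w * t * w⁻¹ = t⁻¹)
    (hu : (w * a) ^ 4 = φ ^ n) (hθ : φ ^ n * φ ^ n = 1)
    (hl : cj a t (1 - 2 ^ n) = a * (t⁻¹ * a * t)) :
    RelB n k β (φ ^ m * (w * a)) a t ∧ (φ ^ m * (w * a)) ^ β * a = w := by
  have hainv : a⁻¹ = a := inv_eq_of_mul_eq_one_left aa
  have hwinv : w⁻¹ = w := inv_eq_of_mul_eq_one_left ww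
  obtain ⟨u, hu0⟩ : ∃ u : T, u = w * a := ⟨_, rfl⟩
  have hcom : Commute φ u := by
    rw [hu0]
    exact (Commute.mul_right (wφ.symm : Commute φ w) (φa : Commute φ a))
  rw [← hu0] at hu ⊢
  have hg : ∀ j : ℕ, (φ ^ m * u) ^ j = φ ^ (m * j) * u ^ j := by
    intro j
    rw [(hcom.pow_left m).mul_pow, ← pow_mul]
  obtain ⟨θ, hθ0⟩ : ∃ θ : T, θ = φ ^ n := ⟨_, rfl⟩
  rw [← hθ0] at hu hθ
  have hθe : ∀ j : ℕ, j % 2 = 0 → θ ^ j = 1 := by
    intro j hj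
    obtain ⟨i, rfl⟩ : ∃ i, j = 2 * i := ⟨j / 2, by omega⟩
    rw [pow_mul, pow_two, hθ, one_pow]
  have hθo : ∀ j : ℕ, j % 2 = 1 → θ ^ j = θ := by
    intro j hj
    obtain ⟨i, rfl⟩ : ∃ i, j = 2 * i + 1 := ⟨j / 2, by omega⟩
    rw [pow_succ, pow_mul, pow_two, hθ, one_pow, one_mul]
  have hφβ : φ ^ β = θ := by
    obtain ⟨b', hb'⟩ := hnb
    have hb2 : b' % 2 = 1 := by
      by_contra h
      have h1 : b' % 2 = 0 := by omega
      have h2 : β % 2 = 0 := by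
        rw [hb', Nat.mul_mod, h1]
        simp
      omega
    rw [hb', pow_mul, ← hθ0]
    exact hθo b' hb2
  have hgβ : (φ ^ m * u) ^ β = u := by
    rw [hg, mul_comm m β, pow_mul, hφβ, hθe m hm, one_mul, hβ, pow_succ, pow_mul, hu, hθe m hm,
      one_mul]
  have hg4 : (φ ^ m * u) ^ 4 = φ⁻¹ := by
    rw [hg, hu]
    apply eq_inv_of_mul_eq_one_left
    have h1 : θ * φ = φ * θ := by
      rw [hθ0]
      exact (Commute.pow_self φ n).eq
    rw [mul_assoc, h1, ← mul_assoc, ← pow_succ]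
    have h2 : m * 4 + 1 = β := by omega
    rw [h2, hφβ, hθ]
  have hu8 : u ^ 8 = 1 := by
    have h1 : u ^ 8 = u ^ 4 * u ^ 4 := by rw [← pow_add]
    rw [h1, hu, hθ]
  have huinv : u⁻¹ = a * w := by
    rw [hu0, mul_inv_rev, hainv, hwinv]
  have huk : u ^ k = u⁻¹ := by
    obtain ⟨j, hj⟩ : ∃ j, k + 1 = 8 * j := ⟨(k + 1) / 8, by omega⟩
    apply eq_inv_of_mul_eq_one_left
    rw [← pow_succ, hj, pow_mul, hu8, one_pow]
  have hφk : φ ^ (m * k) = φ ^ m := by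
    obtain ⟨k', hk'⟩ := hkn
    obtain ⟨m', rfl⟩ : ∃ m', m = 2 * m' := ⟨m / 2, by omega⟩
    have h1 : 2 * m' * k = n * (2 * (m' * k')) + 2 * m' := by
      have h2 : k = n * k' + 1 := by omega
      rw [h2]; ring
    rw [h1, pow_add, pow_mul, ← hθ0, pow_mul, pow_two, hθ, one_pow, one_mul]
  have hma : φ ^ m * a = a * φ ^ m := (Commute.pow_left (show Commute φ a from φa) m).eq
  refine ⟨⟨?_, ?_, ?_⟩, ?_⟩
  · rw [hg, huk, hφk, huinv, hainv, hu0]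
    calc a * (φ ^ m * (w * a)) * a = (a * φ ^ m) * w * (a * a) := by group
      _ = (φ ^ m * a) * w := by rw [aa, ← hma, mul_one]
      _ = φ ^ m * (a * w) := by group
  · rw [hg4, inv_inv]
    exact φt
  · rw [hgβ, hl, huinv, hu0]
    rw [hwinv] at wt
    calc a * w * t * (w * a) = a * (w * t * w) * a := by group
      _ = a * t⁻¹ * a := by rw [wt]
      _ = a * (t⁻¹ * a * t) * t⁻¹ := by group
  · rw [hgβ, hu0, mul_assoc, aa, mul_one]

theorem hTB : StTB := by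
  intro n k β d hP hd T _ τ A Y hA hY
  have h2 : (1 + 1 : GaloisField 2 n) = 0 := CharTwo.add_self_eq_zero _
  have hAA : A * A = 1 := by
    apply Units.ext
    rw [Units.val_mul, hA, mA_sq h2, Units.val_one]
  have hAinv : A⁻¹ = A := inv_eq_of_mul_eq_one_left hAA
  obtain ⟨B, hB⟩ : ∃ B : GL (Fin 3) (GaloisField 2 n),
      (B : Matrix (Fin 3) (Fin 3) (GaloisField 2 n)) = mB 0 1 :=
    ⟨⟨mB 0 1, mB 0 1, mB_sq h2, mB_sq h2⟩, rfl⟩
  have hwinv : τ.w⁻¹ = τ.w := inv_eq_of_mul_eq_one_left τ.ww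
  have aa : τ.κ A * τ.κ A = 1 := by rw [← map_mul, hAA, map_one]
  have φa : τ.φ * τ.κ A * τ.φ⁻¹ = τ.κ A := τ.hφ A A (by rw [hA]; exact mA_mQ d)
  have φt : τ.φ * τ.κ Y * τ.φ⁻¹ = τ.κ Y ^ 2 := by
    rw [← map_pow, pow_two]
    exact τ.hφ Y (Y * Y) (by rw [Units.val_mul, hY]; exact mY_mQ h2 d)
  have hYi1 : (Y : Matrix (Fin 3) (Fin 3) (GaloisField 2 n))
      * ((Y⁻¹ : GL (Fin 3) (GaloisField 2 n)) : Matrix (Fin 3) (Fin 3) (GaloisField 2 n)) = 1 := by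
    rw [← Units.val_mul, mul_inv_cancel, Units.val_one]
  have wt : τ.w * τ.κ Y * τ.w⁻¹ = (τ.κ Y)⁻¹ := by
    rw [← map_inv]
    refine τ.hw Y Y⁻¹ ?_
    have h := mY_mJ d
    rw [← hY] at h
    calc (mJ : Matrix (Fin 3) (Fin 3) (GaloisField 2 n))
          * ((Y⁻¹ : GL (Fin 3) (GaloisField 2 n)) : Matrix (Fin 3) (Fin 3) (GaloisField 2 n))
        = ((Y : Matrix (Fin 3) (Fin 3) (GaloisField 2 n))
            * ((Y⁻¹ : GL (Fin 3) (GaloisField 2 n)) :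
              Matrix (Fin 3) (Fin 3) (GaloisField 2 n))).transpose * mJ
            * ((Y⁻¹ : GL (Fin 3) (GaloisField 2 n)) :
              Matrix (Fin 3) (Fin 3) (GaloisField 2 n)) := by
          rw [hYi1, Matrix.transpose_one, Matrix.one_mul]
      _ = ((Y⁻¹ : GL (Fin 3) (GaloisField 2 n)) :
              Matrix (Fin 3) (Fin 3) (GaloisField 2 n)).transpose
            * ((Y : Matrix (Fin 3) (Fin 3) (GaloisField 2 n)).transpose * mJ)
            * ((Y⁻¹ : GL (Fin 3) (GaloisField 2 n)) :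
              Matrix (Fin 3) (Fin 3) (GaloisField 2 n)) := by
          rw [Matrix.transpose_mul, Matrix.mul_assoc _ _ mJ]
      _ = ((Y⁻¹ : GL (Fin 3) (GaloisField 2 n)) :
              Matrix (Fin 3) (Fin 3) (GaloisField 2 n)).transpose * mJ := by
          rw [h, Matrix.mul_assoc, Matrix.mul_assoc, hYi1, Matrix.mul_one]
  have hwa : τ.w * τ.κ A * τ.w⁻¹ = τ.κ B := by
    refine τ.hw A B ?_
    rw [hAinv, hA, hB]
    exact mJ_mB
  have hN : (((B * A) ^ 2 : GL (Fin 3) (GaloisField 2 n)) :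
      Matrix (Fin 3) (Fin 3) (GaloisField 2 n)) = mQ 1 := by
    rw [pow_two, Units.val_mul, Units.val_mul, hA, hB]
    exact mBA_sq h2
  have hφn : τ.φ ^ n = τ.κ ((B * A) ^ 2) := τ.φn _ hN
  have hu : (τ.w * τ.κ A) ^ 4 = τ.φ ^ n := by
    rw [hwinv] at hwa
    rw [hφn, map_pow, map_mul, ← hwa]
    have h4 : (τ.w * τ.κ A) ^ 4 = ((τ.w * τ.κ A) ^ 2) ^ 2 := by rw [← pow_mul]
    rw [h4, pow_two (τ.w * τ.κ A)]
    congr 1
    group
  have hθ : τ.φ ^ n * τ.φ ^ n = 1 := by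
    rw [hφn, ← map_mul]
    have h1 : (B * A) ^ 2 * (B * A) ^ 2 = 1 := by
      apply Units.ext
      rw [Units.val_mul, hN, mQ_sq h2, Units.val_one]
    rw [h1, map_one]
  have hC : ((Y * A * Y⁻¹ : GL (Fin 3) (GaloisField 2 n)) :
      Matrix (Fin 3) (Fin 3) (GaloisField 2 n)) = mA 0 1 := by
    rw [Units.val_mul, Units.val_mul, hA, hY, mY_mA, Matrix.mul_assoc, ← hY, hYi1,
      Matrix.mul_one]
  have hYq : ((Y ^ (2 ^ n) : GL (Fin 3) (GaloisField 2 n)) :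
      Matrix (Fin 3) (Fin 3) (GaloisField 2 n)) = mP d 1 := by
    rw [Units.val_pow_eq_pow_val, hY, mY_pow h2, hd]
  have hrel : Y ^ (2 ^ n) * A = Y * A * Y⁻¹ * A * Y ^ (2 ^ n) := by
    apply Units.ext
    rw [Units.val_mul, Units.val_mul, Units.val_mul (Y * A * Y⁻¹) A, hC, hYq, hA]
    exact mP_mA h2 d
  have hl : cj (τ.κ A) (τ.κ Y) (1 - 2 ^ n) = τ.κ A * ((τ.κ Y)⁻¹ * τ.κ A * τ.κ Y) := by
    have h1 := congrArg τ.κ hrel
    simp only [map_mul, map_pow, map_inv] at h1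
    obtain ⟨a, ha⟩ : ∃ a : T, a = τ.κ A := ⟨_, rfl⟩
    obtain ⟨t, ht⟩ : ∃ t : T, t = τ.κ Y := ⟨_, rfl⟩
    rw [← ha, ← ht] at h1 ⊢
    unfold cj
    have e1 : t ^ (-(1 - 2 ^ n : ℤ)) = t⁻¹ * t ^ (2 ^ n) := by
      have h3 : (-(1 - 2 ^ n : ℤ)) = -1 + ((2 ^ n : ℕ) : ℤ) := by push_cast; ring
      rw [h3, zpow_add, zpow_neg_one, zpow_natCast]
    have e2 : t ^ (1 - 2 ^ n : ℤ) = (t ^ (2 ^ n))⁻¹ * t := by
      have h3 : (1 - 2 ^ n : ℤ) = -((2 ^ n : ℕ) : ℤ) + 1 := by push_cast; ring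
      rw [h3, zpow_add, zpow_neg, zpow_one, zpow_natCast]
    rw [e1, e2]
    calc t⁻¹ * t ^ (2 ^ n) * a * ((t ^ (2 ^ n))⁻¹ * t)
        = t⁻¹ * (t ^ (2 ^ n) * a) * ((t ^ (2 ^ n))⁻¹ * t) := by group
      _ = t⁻¹ * (t * a * t⁻¹ * a * t ^ (2 ^ n)) * ((t ^ (2 ^ n))⁻¹ * t) := by rw [h1]
      _ = a * (t⁻¹ * a * t) := by
          simp only [mul_assoc, inv_mul_cancel_left, mul_inv_cancel_left]
  have hb8 := hP.b8
  exact tb_abs (m := (β - 1) / 4) τ.w (τ.κ A) (τ.κ Y) τ.φ (by omega) (by omega) hP.k8 hP.kn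
    hP.nb τ.ww τ.wφ aa (mul_inv_eq_iff_eq_mul.1 φa) φt wt hu hθ hl

end Pool.Agent.Helper7.RK
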