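import Pool.Agent.Helper1.RK.StC

/-!
# Project RK (MP_de00bc_nt), module GA1: automorphisms fix the coordinate
-/

set_option autoImplicit false

namespace Pool.Agent.Helper7.RK

open Pool.Agent.Helper1.RK
open Polynomial

private theorem ga_X_nc {L : Type} [Field L] : ¬ Cst (RatFunc.X : RatFunc L) := by
  rintro ⟨a, ha⟩
  have h1 : algebraMap L[X] (RatFunc L) X = algebraMap L[X] (RatFunc L) (C a) := by
    rw [RatFunc.algebraMap_X, RatFunc.algebraMap_C]
    exact ha
  have h2 : (X : L[X]) = C a := RatFunc.algebraMap_injective L h1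
  have h3 := congrArg (fun P => P.coeff 1) h2
  simp [coeff_C] at h3

private theorem ga_ord_zero {L : Type} [Field L] (p : L) : ord p (0 : RatFunc L) = 0 := by
  rw [ord, RatFunc.num_zero, RatFunc.denom_zero]
  simp

private theorem ga_ev_zero {L : Type} [Field L] (p : L) : ev p (0 : RatFunc L) = 0 := by
  rw [ev, RatFunc.num_zero]
  simp

theorem pGA1 (h1 : StORD) (h2 : StREG) (h3 : StDER) (h4 : StPL) (h5 : StIOT) (h6 : StTRN)
    (h7 : StCMP) (h8 : StSIG) : StGA1 := by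
  intro L _ _ _ dl lam u D φ σ S k hcfg hkill hgen huni hext hcomm hσ hSu
  obtain ⟨-, -, -, iSub, iExt, iC⟩ := h5 L
  obtain ⟨-, -, s3⟩ := h8 L
  obtain ⟨-, -, -, s34, -, s36⟩ := s3 σ S hext
  obtain ⟨dEx, -, -, -⟩ := h3 L
  have φC : ∀ a, φ (RatFunc.C a) = RatFunc.C a := (iC φ).1
  have φinj : Function.Injective φ := φ.toRingHom.injective
  -- step 1
  have hk1 : ∀ l, D l (S (φ RatFunc.X)) = 0 := by
    intro l
    rw [hcomm, hkill, map_zero]
  obtain ⟨M, hM⟩ := hgen.top (S (φ RatFunc.X)) (fun l _ => hk1 l)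
  have hk2 : ∀ l, D l (S.symm (φ RatFunc.X)) = 0 := by
    intro l
    apply S.injective
    rw [← hcomm, RingEquiv.apply_symm_apply, hkill, map_zero]
  obtain ⟨M', hM'⟩ := hgen.top (S.symm (φ RatFunc.X)) (fun l _ => hk2 l)
  -- step 2
  have hMnc : ¬ Cst M := by
    rintro ⟨a, ha⟩
    have e1 : S (φ RatFunc.X) = S (RatFunc.C (σ.symm a)) := by
      rw [hext.2, RingEquiv.apply_symm_apply, ← hM, ha, φC]
    have e2 := S.injective e1
    exact ga_X_nc (((iC φ).2 _).1 ⟨_, e2⟩)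
  -- step 3
  obtain ⟨θ, hθ⟩ := iSub M hMnc
  have hSφ : ∀ g, S (φ g) = φ (θ (S g)) := by
    intro g
    exact s34 φ (φ.comp θ) (by
      change φ (θ RatFunc.X) = S (φ RatFunc.X)
      rw [hθ, hM]) g
  -- step 4
  have hθN : θ (S M') = RatFunc.X := by
    apply φinj
    rw [← hSφ, hM', RingEquiv.apply_symm_apply]
  have hNnc : ¬ Cst (S M') := by
    intro h
    apply ga_X_nc (L := L)
    rw [← hθN]
    exact ((iC θ).2 _).2 h
  obtain ⟨η, hη⟩ := iSub (S M') hNnc
  have hθη : ∀ g, θ (η g) = g := by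
    intro g
    have := iExt (θ.comp η) (AlgHom.id L _) (by
      change θ (η RatFunc.X) = RatFunc.X
      rw [hη, hθN])
    exact DFunLike.congr_fun this g
  -- step 5
  have hord : ∀ p q : L, Reg p M → ev p M = q → ∀ g, g ≠ 0 → ord p (θ g) = ord q g := by
    intro p q hr he g hg
    obtain ⟨c1, c2, -, -⟩ := h7 L p q θ (by rw [hθ]; exact hr) (by rw [hθ]; exact he)
    obtain ⟨-, -, -, -, -, -, -, -, o9, -⟩ := h1 L p
    have hne : η (RatFunc.X - RatFunc.C p) ≠ 0 := by
      intro h0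
      have h01 : (RatFunc.X - RatFunc.C p : RatFunc L) = 0 := by
        rw [← hθη (RatFunc.X - RatFunc.C p), h0, map_zero]
      rw [h01, ga_ord_zero] at o9
      exact zero_ne_one o9
    have e1 := c2 _ hne
    rw [hθη, o9] at e1
    have e2 : ord p (θ RatFunc.X - RatFunc.C q) = 1 := by
      have hd : ord p (θ RatFunc.X - RatFunc.C q) ∣ 1 := ⟨_, e1⟩
      have := Int.le_of_dvd one_pos hd
      omega
    rw [c2 g hg, e2, one_mul]
  -- step 6
  have huk : ∀ l, l ≠ k → D l (u k) = 0 := fun l hl => hcfg.kill l k (Ne.symm hl)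
  obtain ⟨U, hU⟩ := hgen.top (u k) huk
  -- step 7
  choose E hE using fun l => dEx (dl l) 0
  have hover : ∀ l, Over (dl l) (D l RatFunc.X) (D l) := fun l => ⟨hcfg.lift l, rfl⟩
  have hφE : ∀ l g, D l (φ g) = φ (E l g) := by
    intro l
    exact (h6 L (dl l)).1 φ (D l RatFunc.X) 0 (D l) (E l) (hover l) (hE l) (by
      rw [hkill, map_zero])
  have hEU : ∀ l, l ≠ k → E l U = 0 := by
    intro l hl
    apply φinj
    rw [← hφE, hU, huk l hl, map_zero]
  have hSU : S U = U := by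
    refine s36 {l : Fin 3 // l ≠ k} (fun i => dl i.1) (fun i => E i.1) (fun i => hE i.1) ?_ U
      (fun i => hEU i.1 i.2)
    intro x hx
    exact hσ x (fun l hl => hx ⟨l, hl⟩)
  have hθU : θ U = U := by
    apply φinj
    have e := hSφ U
    rw [hU, hSu, hSU] at e
    rw [← e, hU]
  have hθleg : θ (leg (lam k) U) = leg (lam k) U := by
    rw [leg, map_mul, map_mul, map_sub, map_sub, map_one, hθU, (iC θ).1]
  have hEM : ∀ l, E l M = 0 := by
    intro l
    apply φinj
    rw [← hφE, hM, hk1, map_zero]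
  -- step 12
  obtain ⟨τ, hτ1, hτ2, hτ3⟩ := huni U hU
  obtain ⟨Dt, hDt⟩ := dEx (0 : Derivation ℤ L L) 1
  have hPL : ∀ c : RatFunc L, E k c = 0 → ¬ Cst c → ¬ (¬ Reg τ c ∨ dl k (ev τ c) = 0) := by
    intro c hc hnc hor
    have := ((h4 L τ (dl k) 0 (E k) Dt c (hE k) hDt hc hnc).1 hor).2
    rw [ga_ev_zero] at this
    exact hτ1 this.symm
  have hM3 := hPL M (hEM k) hMnc
  push Not at hM3
  obtain ⟨hreg, hdq⟩ := hM3
  have hlegne : leg (lam k) U ≠ 0 := by
    intro h0
    rw [h0, ga_ord_zero] at hτ2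
    simp at hτ2
  have hq : ev τ M = τ := by
    apply hτ3 _ hdq
    rw [← hord τ (ev τ M) hreg rfl _ hlegne, hθleg]
    exact hτ2
  -- step 15
  obtain ⟨-, -, -, -, r5, r6, r7, -, -⟩ := h2 L τ
  obtain ⟨-, -, -, -, r75, r76⟩ := r7 M RatFunc.X hreg r6.1
  rw [hq, r6.2, sub_self] at r76
  have hEc : E k (M - RatFunc.X) = 0 := by
    rw [map_sub, hEM, (hE k).2, sub_zero]
  have hcst : Cst (M - RatFunc.X) := by
    by_contra hnc
    apply hPL _ hEc hnc
    right
    rw [r76, map_zero]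
  obtain ⟨a, ha⟩ := hcst
  have ha0 : a = 0 := by
    have := (r5 a).2
    rw [← ha, r76] at this
    exact this.symm
  rw [ha0, map_zero] at ha
  have hMX : M = RatFunc.X := sub_eq_zero.1 ha
  rw [← hM, hMX]

end Pool.Agent.Helper7.RK
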