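import Mathlib
import Pool.Agent.Helper43.RK.St

set_option autoImplicit false

namespace Pool.Agent.Helper7.RK

open Pool.Agent.Helper43.RK
open scoped commutatorElement

theorem comm_center_inv {H : Type} [Group H] (g h x y : H) (hx : x ∈ Subgroup.center H)
    (hy : y ∈ Subgroup.center H) : ⁅g * x, h * y⁆ = ⁅g, h⁆ := by
  have hx' := Subgroup.mem_center_iff.1 hx
  have hy' := Subgroup.mem_center_iff.1 hy
  rw [commutatorElement_def, commutatorElement_def]
  have e1 : g * x * (h * y) * (g * x)⁻¹ * (h * y)⁻¹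
      = g * (x * h) * (y * x⁻¹) * g⁻¹ * y⁻¹ * h⁻¹ := by group
  have hxi : y * x⁻¹ = x⁻¹ * y := by
    rw [mul_inv_eq_iff_eq_mul, mul_assoc, hx' y]
    group
  have e2 : y * g⁻¹ = g⁻¹ * y := (hy' g⁻¹).symm
  rw [e1, hxi, ← hx' h]
  calc g * (h * x) * (x⁻¹ * y) * g⁻¹ * y⁻¹ * h⁻¹
      = g * h * (y * g⁻¹) * y⁻¹ * h⁻¹ := by group
    _ = g * h * g⁻¹ * h⁻¹ := by rw [e2]; group

theorem finite_commSet {H : Type} [Group H] (hfi : (Subgroup.center H).FiniteIndex) :
    Finite (commutatorSet H) := by
  haveI : (Subgroup.center H).FiniteIndex := hfi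
  haveI hq : Finite (H ⧸ Subgroup.center H) := Subgroup.finite_quotient_of_finiteIndex
  have hsub : commutatorSet H ⊆ Set.range
      (fun q : (H ⧸ Subgroup.center H) × (H ⧸ Subgroup.center H) => ⁅q.1.out, q.2.out⁆) := by
    rintro g ⟨g1, g2, rfl⟩
    refine ⟨((g1 : H ⧸ Subgroup.center H), (g2 : H ⧸ Subgroup.center H)), ?_⟩
    obtain ⟨⟨x, hx⟩, h1⟩ := QuotientGroup.mk_out_eq_mul (Subgroup.center H) g1
    obtain ⟨⟨y, hy⟩, h2⟩ := QuotientGroup.mk_out_eq_mul (Subgroup.center H) g2
    show ⁅((g1 : H ⧸ Subgroup.center H)).out, ((g2 : H ⧸ Subgroup.center H)).out⁆ = _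
    rw [h1, h2]
    exact comm_center_inv g1 g2 x y hx hy
  exact ((Set.finite_range _).subset hsub).to_subtype

theorem hRC : StRC := by
  intro H _ S hS hs hgen hfi
  haveI h1 : Finite (commutatorSet H) := finite_commSet hfi
  haveI h2 : Finite (_root_.commutator H) := inferInstance
  -- the abelianization is finite
  have hgenA : Subgroup.closure ((Abelianization.of : H →* Abelianization H) '' S) = ⊤ := by
    rw [← MonoidHom.map_closure, hgen, ← MonoidHom.range_eq_map]
    exact MonoidHom.range_eq_top.2 (QuotientGroup.mk_surjective)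
  have htors : ∀ a : Abelianization H, a * a = 1 := by
    intro a
    have ha : a ∈ Subgroup.closure ((Abelianization.of : H →* Abelianization H) '' S) := by
      rw [hgenA]; trivial
    induction ha using Subgroup.closure_induction with
    | mem x hx =>
      obtain ⟨s, hsS, rfl⟩ := hx
      rw [← map_mul, hs s hsS, map_one]
    | one => rw [mul_one]
    | mul x y _ _ hx hy => rw [mul_mul_mul_comm, hx, hy, mul_one]
    | inv x _ hx => rw [← mul_inv, hx, inv_one]
  haveI hfg : Group.FG (Abelianization H) := by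
    rw [Group.fg_iff]
    exact ⟨_, hgenA, hS.image _⟩
  have htor : Monoid.IsTorsion (Abelianization H) := by
    intro a
    exact isOfFinOrder_iff_pow_eq_one.2 ⟨2, by norm_num, by rw [pow_two]; exact htors a⟩
  haveI hfa : Finite (Abelianization H) := CommGroup.finite_of_fg_torsion _ htor
  haveI : Finite (H ⧸ _root_.commutator H) := hfa
  exact Finite.of_subgroup_quotient (_root_.commutator H)

end Pool.Agent.Helper7.RK
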